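import Pool.Agent.W782.CTLOWC
import Pool.Agent.P8H68.RB.Final
import Pool.Agent.P8H68.RB.PA
import Pool.Agent.P8H68.RB.PB
import Pool.Agent.P8H68.RB.PBD
import Pool.Agent.P8H68.RB.PBLL
import Pool.Agent.P8H68.RB.PBLU
import Pool.Agent.P8H68.RB.PCT
import Pool.Agent.P8H68.RB.PD
import Pool.Agent.P8H68.RB.PE
import Pool.Agent.P8H68.RB.PE1
import Pool.Agent.P8H68.RB.PGG
import Pool.Agent.P8H68.RB.PGROT
import Pool.Agent.P8H68.RB.PGS
import Pool.Agent.P8H68.RB.PJB
import Pool.Agent.P8H68.RB.PJM
import Pool.Agent.P8H68.RB.PNEC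
import Pool.Agent.P8H68.RB.PNET
import Pool.Agent.P8H68.RB.PPT
import Pool.Agent.P8H68.RB.PROT
import Pool.Agent.P8H68.RB.PSC
import Pool.Agent.P8H68.RB.PSG
import Pool.Agent.P8H68.RB.PSUF
import Pool.Agent.P8H68.RB.PUB

/-!
# Random Steinhaus power series in the Bloch space and in `BMOA` (MP_e603cf_an, Q1 and Q2)

For square summable `a` and independent random angles `α_k`, uniform on `[0, 2π]`, put
`f(z, α) = ∑ a_k e^{iα_k} z^k`.

For a finite set `s` of indices and real `b_k` let `dd s b t = (∑_{k ∈ s} b_k² |e^{ikt} - 1|²)^{1/2}`,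
let `mu s b ε` be the proportion of the `t ∈ [0, 2π]` with `dd s b t ≤ ε`, and let
`J s b = ∫_0^∞ (log (1 / mu s b ε))^{1/2} dε` (the Dudley-Fernique entropy integral).

* Q1: `f(·, α)` is almost surely in the Bloch space iff the integrals `J` of the dyadic blocks
  `(|a_k|)`, `2^n ≤ k < 2^{n+1}`, are bounded.
* Q2: `f(·, α)` is almost surely in `BMOA` iff the integrals `J` of the sequences
  `(u_{⌊k/2^n⌋} |a_k|)`, `2^n ≤ k < (M+1) 2^n`, are bounded uniformly in `n`, `M` and real
  `u_1, …, u_M` with `∑ u_m² ≤ 1`.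
-/

set_option autoImplicit false

open MeasureTheory ProbabilityTheory
open scoped ENNReal
open Pool.Agent.P8H68.RB

namespace Pool.Agent.Results.MP_e603cf_an.RandomBlochBMOA

/-- Steinhaus sequences exist: the coordinates of the infinite product space. -/
theorem exists_isSteinhaus : ∃ P : Measure (ℕ → ℝ), IsProbabilityMeasure P ∧
    IsSteinhaus P (fun k ω => ω k) := by
  have hv : (volume (Set.Icc (0 : ℝ) (2 * Real.pi))) ≠ 0 := by
    rw [Real.volume_Icc, sub_zero]
    exact (ENNReal.ofReal_pos.2 (by positivity)).ne'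
  have hp : IsProbabilityMeasure (ProbabilityTheory.cond volume (Set.Icc (0 : ℝ) (2 * Real.pi))) :=
    cond_isProbabilityMeasure_of_finite hv (by rw [Real.volume_Icc]; exact ENNReal.ofReal_ne_top)
  refine ⟨Measure.infinitePi fun _ => ProbabilityTheory.cond volume (Set.Icc (0 : ℝ) (2 * Real.pi)),
    inferInstance, fun k => measurable_pi_apply k, ?_, fun k => ?_⟩
  · exact iIndepFun_infinitePi (X := fun _ x => x) fun _ => measurable_id
  · exact Measure.infinitePi_map_eval _ k

/-- **Theorem.** Let `α_0, α_1, …` be independent random variables, uniformly distributed on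
`[0, 2π]`, and let `∑ |a_k|² < ∞`. Then `f(z, α) = ∑ a_k e^{iα_k} z^k` is almost surely in the Bloch
space if and only if `a` satisfies `BlochCondition`, and almost surely in `BMOA` if and only if `a`
satisfies `BMOACondition`. -/
theorem result : ∀ (Ω : Type) [MeasurableSpace Ω] (P : Measure Ω) [IsProbabilityMeasure P]
    (α : ℕ → Ω → ℝ), IsSteinhaus P α → ∀ a : ℕ → ℂ, Summable (fun k => ‖a k‖ ^ 2) →
    ((∀ᵐ ω ∂P, InBloch (randomSeries a fun k => α k ω)) ↔ BlochCondition a) ∧
    ((∀ᵐ ω ∂P, InBMOA (randomSeries a fun k => α k ω)) ↔ BMOACondition a) := by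
  have hEMB := Pool.Agent.W782.CTEMB.main
  have hSUD := Pool.Agent.W597.CTSUD.main hEMB
  have hGROW := Pool.Agent.W782.CTGROW.main' hSUD Pool.Agent.W782.CTCONC.main'
  have hSC := part_SC part_GG hGROW hEMB part_UB (part_PT part_JL part_NET) part_SG
  have hE1 := part_E1 hGROW hEMB part_GROT
  have hGS := part_GS hEMB hSC part_JM part_JF (part_CT part_ROT) part_GROT
  have hE := part_E hGS hE1 hSC part_JF
  have hNEC := part_NEC hE part_ROT part_JB
  have hSUF := part_SUF hSC part_D part_JB
  exact part_FINAL hSUF hNEC (part_A part_BD) (part_B part_BD) part_BLU part_BLL part_JB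

end Pool.Agent.Results.MP_e603cf_an.RandomBlochBMOA
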